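import Pool.Agent.P.MP_8d62fb_al.H7.Defs

namespace Pool.Agent.AlgEnt

open scoped Pointwise
open Filter

variable {G : Type*} [Group G]

theorem traj_finite (φ : G →* G) {F : Set G} (hF : F.Finite) : ∀ n, (traj φ F n).Finite
  | 0 => Set.finite_singleton _
  | n + 1 => (traj_finite φ hF n).mul (hF.image _)

theorem traj_mono (φ : G →* G) {F F' : Set G} (h : F ⊆ F') : ∀ n, traj φ F n ⊆ traj φ F' n
  | 0 => le_rfl
  | n + 1 => Set.mul_subset_mul (traj_mono φ h n) (Set.image_mono h)

theorem mul_mem_traj (φ : G →* G) {F : Set G} {n : ℕ} {x y : G} (hx : x ∈ traj φ F n)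
    (hy : y ∈ F) : x * φ^[n] y ∈ traj φ F (n + 1) :=
  Set.mul_mem_mul hx ⟨y, hy, rfl⟩

theorem traj_sub (φ : G →* G) {F : Set G} (S : ℕ → Set G) (h0 : (1 : G) ∈ S 0)
    (hs : ∀ n x y, x ∈ S n → y ∈ F → x * φ^[n] y ∈ S (n + 1)) : ∀ n, traj φ F n ⊆ S n
  | 0 => by
    intro x hx
    have : x = 1 := hx
    rw [this]; exact h0
  | n + 1 => by
    rintro z ⟨x, hx, _, ⟨y, hy, rfl⟩, rfl⟩
    exact hs n x y (traj_sub φ S h0 hs n hx) hy

theorem entF_le (φ : G →* G) (F : Set G) (a : ℝ) (ha : 1 ≤ a) (C : ℝ)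
    (h : ∀ n, ((traj φ F n).ncard : ℝ) ≤ C * a ^ n) :
    entF φ F ≤ ENNReal.ofReal (Real.log a) := by
  have hC : ∀ n, ((traj φ F n).ncard : ℝ) ≤ max C 1 * a ^ n := fun n =>
    (h n).trans (mul_le_mul_of_nonneg_right (le_max_left _ _) (by positivity))
  set D := max C 1 with hD
  have hD1 : 1 ≤ D := le_max_right _ _
  have ht : Tendsto (fun n : ℕ => ENNReal.ofReal (Real.log D / n + Real.log a)) atTop
      (nhds (ENNReal.ofReal (Real.log a))) := by
    apply ENNReal.tendsto_ofReal
    have := (tendsto_const_div_atTop_nhds_zero_nat (Real.log D)).add_const (Real.log a)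
    simpa using this
  rw [← ht.limsup_eq]
  refine limsup_le_limsup ?_
  filter_upwards [eventually_ge_atTop 1] with n hn
  apply ENNReal.ofReal_le_ofReal
  have hn' : (0 : ℝ) < n := by exact_mod_cast hn
  have hl : Real.log (traj φ F n).ncard ≤ Real.log D + n * Real.log a := by
    have h1 : Real.log (D * a ^ n) = Real.log D + n * Real.log a := by
      rw [Real.log_mul (by positivity) (by positivity), Real.log_pow]
    rw [← h1]
    rcases Nat.eq_zero_or_pos (traj φ F n).ncard with h0 | h0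
    · rw [h0]; simp only [Nat.cast_zero, Real.log_zero]
      exact Real.log_nonneg (one_le_mul_of_one_le_of_one_le hD1 (one_le_pow₀ ha))
    · exact Real.log_le_log (by exact_mod_cast h0) (hC n)
  rw [div_le_iff₀ hn', add_mul, div_mul_cancel₀ _ hn'.ne']
  linarith

theorem ent_le (φ : G →* G) (a : ℝ) (ha : 1 ≤ a)
    (h : ∀ F : Finset G, ∃ C : ℝ, ∀ n, ((traj φ F n).ncard : ℝ) ≤ C * a ^ n) :
    ent φ ≤ ENNReal.ofReal (Real.log a) := by
  refine iSup₂_le fun F _ => ?_
  obtain ⟨C, hC⟩ := h F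
  exact entF_le φ F a ha C hC

theorem le_entF (φ : G →* G) (F : Set G) (a : ℝ) (ha : 0 < a)
    (h : ∀ n, a ^ n ≤ ((traj φ F n).ncard : ℝ)) : ENNReal.ofReal (Real.log a) ≤ entF φ F := by
  refine le_limsup_of_frequently_le ?_
  refine Eventually.frequently ?_
  filter_upwards [eventually_ge_atTop 1] with n hn
  apply ENNReal.ofReal_le_ofReal
  have hn' : (0 : ℝ) < n := by exact_mod_cast hn
  rw [le_div_iff₀ hn', mul_comm, ← Real.log_pow]
  exact Real.log_le_log (by positivity) (h n)

theorem le_ent (φ : G →* G) (F : Set G) (hF : F.Finite) (a : ℝ) (ha : 0 < a)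
    (h : ∀ n, a ^ n ≤ ((traj φ F n).ncard : ℝ)) : ENNReal.ofReal (Real.log a) ≤ ent φ := by
  classical
  have h1 : (1 : G) ∈ insert 1 hF.toFinset := Finset.mem_insert_self _ _
  refine le_trans ?_ (le_iSup₂ (f := fun (F : Finset G) (_ : (1 : G) ∈ F) => entF φ F) _ h1)
  refine le_entF φ _ a ha fun n => (h n).trans ?_
  have : F ⊆ ((insert 1 hF.toFinset : Finset G) : Set G) := by
    intro x hx; simp [hx]
  exact_mod_cast Set.ncard_le_ncard (traj_mono φ this n)
    (traj_finite φ (Finset.finite_toSet _) n)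

/-- Twisting by an inner automorphism. -/
theorem ncard_traj_conj (φ ψ : G →* G) (f : G) (hψ : ∀ x, ψ x = f * φ x * f⁻¹) (F : Set G)
    (hF : F.Finite) (n : ℕ) :
    (traj ψ F n).ncard ≤ (traj φ ((fun y => y * f) '' F) n).ncard := by
  let p : ℕ → G := fun n => Nat.rec 1 (fun n q => q * φ^[n] f) n
  have hp : ∀ n, p (n + 1) = p n * φ^[n] f := fun n => rfl
  have hit : ∀ n x, ψ^[n] x = p n * φ^[n] x * (p n)⁻¹ := by
    intro n
    induction n with
    | zero => intro x; simp [p]
    | succ n ih =>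
      intro x
      rw [Function.iterate_succ_apply, ih, hψ, hp, Function.iterate_succ_apply]
      simp only [iterate_map_mul, iterate_map_inv]
      group
  have hs := traj_sub ψ (F := F)
    (fun n => {x | x * p n ∈ traj φ ((fun y => y * f) '' F) n}) (by simp [p, traj])
    (by
      intro n x y hx hy
      have := mul_mem_traj φ hx (y := y * f) ⟨y, hy, rfl⟩
      show x * ψ^[n] y * p (n + 1) ∈ traj φ ((fun y => y * f) '' F) (n + 1)
      rw [hit, hp]
      rw [iterate_map_mul] at this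
      have e : x * (p n * φ^[n] y * (p n)⁻¹) * (p n * φ^[n] f) = x * p n * (φ^[n] y * φ^[n] f) := by
        group
      rw [e]; exact this)
  refine Set.ncard_le_ncard_of_injOn (fun x => x * p n) (fun x hx => hs n hx)
    (fun x _ y _ h => mul_right_cancel h) (traj_finite φ (hF.image _) n)

end Pool.Agent.AlgEnt
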