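import Pool.Agent.P.MP_8d62fb_al.H7.Grp

namespace Pool.Agent.AlgEnt

open Finset
open scoped symmDiff

variable {m : ℕ → ℕ}

theorem img_sub {w : ℕ} {k : Finset ℤ} (h : k ⊆ Ico (-(w : ℤ)) w) (n : ℕ) :
    k.image (· + (n : ℤ)) ⊆ Ico ((n : ℤ) - w) (n + w) := by
  intro j hj
  obtain ⟨i, hi, rfl⟩ := mem_image.1 hj
  have := mem_Ico.1 (h hi)
  rw [mem_Ico]; omega

theorem step_k {w n : ℕ} {k k' : Finset ℤ} (h : k ⊆ Ico (-(w : ℤ)) (n + w))
    (h' : k' ⊆ Ico (-(w : ℤ)) w) :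
    k ∆ k'.image (· + (n : ℤ)) ⊆ Ico (-(w : ℤ)) ((n + 1 : ℕ) + w) := by
  intro j hj
  rw [mem_Ico]; push_cast
  rcases mem_symmDiff.1 hj with hj | hj
  · have := mem_Ico.1 (h hj.1); omega
  · have := mem_Ico.1 (img_sub h' n hj.1); omega

theorem traj_k {F : Set (Gp m)} {w : ℕ} (hw : ∀ y ∈ F, y.k ⊆ Ico (-(w : ℤ)) w) (n : ℕ) :
    traj (sh m 1) F n ⊆ {x | x.k ⊆ Ico (-(w : ℤ)) (n + w)} := by
  refine traj_sub (sh m 1) (fun n => {x | x.k ⊆ Ico (-(w : ℤ)) (n + w)}) (empty_subset _) ?_ n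
  intro n x y hx hy
  show (x * (sh m 1)^[n] y).k ⊆ _
  rw [sh_iter, mul_k, sh_k]
  exact step_k hx (hw y hy)

theorem card_Ico' (w n : ℕ) : (Ico (-(w : ℤ)) (n + w)).card = n + 2 * w := by
  rw [Int.card_Ico]; omega

theorem ent_quo_le : ent (quo (sh m 1) (HH m) sh_le) ≤ ENNReal.ofReal (Real.log 2) := by
  refine ent_le _ 2 (by norm_num) fun F => ?_
  have hF : (Quotient.out '' (F : Set (Gp m ⧸ HH m))).Finite := F.finite_toSet.image _
  obtain ⟨w, hw⟩ := exists_w hF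
  have e : QuotientGroup.mk' (HH m) '' (Quotient.out '' (F : Set (Gp m ⧸ HH m))) = F := by
    rw [Set.image_image]; simp
  refine ⟨2 ^ (2 * w), fun n => ?_⟩
  rw [← e, ← traj_image _ (sh m 1) _ (quo_comm _ _ sh_le)]
  have hs : QuotientGroup.mk' (HH m) '' traj (sh m 1) (Quotient.out '' (F : Set (Gp m ⧸ HH m))) n ⊆
      (fun k => QuotientGroup.mk' (HH m) (el m k)) ''
        ((Ico (-(w : ℤ)) (n + w)).powerset : Set (Finset ℤ)) := by
    rintro _ ⟨x, hx, rfl⟩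
    exact ⟨x.k, mem_coe.2 (mem_powerset.2 (traj_k hw n hx)), mk_eq.2 rfl⟩
  have h1 := (Set.ncard_le_ncard hs ((finite_toSet _).image _)).trans
    (Set.ncard_image_le (finite_toSet _))
  rw [Set.ncard_coe_finset, card_powerset, card_Ico', add_comm, pow_add] at h1
  exact_mod_cast h1

theorem exists_traj_k (n : ℕ) : ∀ k : Finset ℤ, k ⊆ Ico (0 : ℤ) n →
    ∃ x ∈ traj (tw m) {1, el m {0}} n, x.k = k := by
  induction n with
  | zero => intro k hk; exact ⟨1, rfl, by simpa [one_k, eq_comm] using hk⟩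
  | succ n ih =>
    intro k hk
    obtain ⟨x, hx, e⟩ := ih (k.erase n) (fun j hj => by
      have h1 := mem_erase.1 hj
      have h2 := mem_Ico.1 (hk h1.2)
      rw [mem_Ico]; push_cast at h2; omega)
    by_cases h : (n : ℤ) ∈ k
    · refine ⟨_, mul_mem_traj _ hx (y := el m {0}) (Or.inr rfl), ?_⟩
      rw [mul_k, tw_iter_k, e]
      ext j
      by_cases hj : j = n <;> simp [el, mem_symmDiff, hj, h]
    · refine ⟨_, mul_mem_traj _ hx (y := 1) (Or.inl rfl), ?_⟩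
      rw [mul_k, tw_iter_k, e, one_k, image_empty, sd_empty, erase_eq_of_notMem h]

theorem le_ent_quo : ENNReal.ofReal (Real.log 2) ≤ ent (quo (tw m) (HH m) tw_le) := by
  have hF : ({1, el m {0}} : Set (Gp m)).Finite := Set.toFinite _
  refine le_ent _ (QuotientGroup.mk' (HH m) '' {1, el m {0}}) (hF.image _) 2 (by norm_num)
    fun n => ?_
  rw [← traj_image _ (tw m) _ (quo_comm _ _ tw_le)]
  have h1 := Set.ncard_le_ncard_of_injOn (s := ((Ico (0 : ℤ) n).powerset : Set (Finset ℤ)))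
    (t := QuotientGroup.mk' (HH m) '' traj (tw m) {1, el m {0}} n)
    (fun k => QuotientGroup.mk' (HH m) (el m k))
    (fun k hk => by
      obtain ⟨x, hx, e⟩ := exists_traj_k (m := m) n k (mem_powerset.1 (mem_coe.1 hk))
      exact ⟨x, hx, mk_eq.2 e⟩)
    (fun k _ k' _ h => mk_eq.1 h) ((traj_finite _ hF n).image _)
  rw [Set.ncard_coe_finset, card_powerset, Int.card_Ico] at h1
  simp only [sub_zero, Int.toNat_natCast] at h1
  exact_mod_cast h1

theorem fib_bound {W : Submodule F3 E} {d : ℕ} (h : Sm W d) (k : Finset ℤ) :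
    {x : Gp m | x.k = k ∧ x.v ∈ W}.Finite ∧ {x : Gp m | x.k = k ∧ x.v ∈ W}.ncard ≤ 3 ^ d := by
  obtain ⟨T, h1, h2⟩ := h
  have hi : Set.InjOn (fun x : Gp m => x.v) {x : Gp m | x.k = k ∧ x.v ∈ W} :=
    fun x hx y hy e => Gp.ext e (hx.1.trans hy.1.symm)
  have hm : Set.MapsTo (fun x : Gp m => x.v) {x : Gp m | x.k = k ∧ x.v ∈ W} T :=
    fun x hx => h2 _ hx.2
  refine ⟨Set.Finite.of_injOn hm hi T.finite_toSet, ?_⟩
  have := Set.ncard_le_ncard_of_injOn _ hm hi T.finite_toSet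
  rw [Set.ncard_coe_finset] at this
  exact this.trans h1

theorem ent_res_le : ent (res (sh m 1) (HH m) sh_le) ≤ ENNReal.ofReal (Real.log 3) := by
  refine ent_le _ 3 (by norm_num) fun F => ?_
  obtain ⟨s, w, hw⟩ := exists_B (m := m) (F.finite_toSet.image fun x => x.1.v)
    (by rintro _ ⟨x, -, rfl⟩; exact x.1.hv)
  refine ⟨3 ^ (2 ^ s + 2 * w), fun n => ?_⟩
  rw [ncard_traj_res]
  have hs := traj_sub (sh m 1) (F := (HH m).subtype '' (F : Set (HH m)))
    (fun n => {x | x.k = ∅ ∧ x.v ∈ B m s (-w) (-w + (n + 2 * w : ℕ))}) ⟨rfl, zero_mem _⟩ (by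
      rintro n x _ hx ⟨y, hy, rfl⟩
      rw [sh_iter]
      refine ⟨?_, ?_⟩
      · rw [mul_k, sh_k, hx.1, Subgroup.subtype_apply, mem_HH.1 y.2, image_empty, sd_self]
      · rw [mul_v, sh_v, hx.1, ch_empty, one_mul]
        refine add_mem (B_mono le_rfl le_rfl (by push_cast; omega) hx.2) ?_
        exact B_mono le_rfl (by omega) (by push_cast; omega) (shE_B n (hw _ ⟨y, hy, rfl⟩))) n
  obtain ⟨h1, h2⟩ := fib_bound (m := m) (sm_B (m := m) s (-w) (n + 2 * w)) ∅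
  have h3 := (Set.ncard_le_ncard hs h1).trans h2
  have e : 2 ^ s + (n + 2 * w) = 2 ^ s + 2 * w + n := by ring
  rw [e, pow_add] at h3
  exact_mod_cast h3

/-- Periodic functions supported on one residue class. -/
def wf (k0 e : ℕ) (a : ZMod (2 ^ e) → F3) : E :=
  fun x => if (2 : ℤ) ^ k0 ∣ x - 1 then a (((x - 1) / 2 ^ k0 : ℤ)) else 0

theorem wf_per (k0 e : ℕ) (a : ZMod (2 ^ e) → F3) : wf k0 e a ∈ Per (k0 + e) := by
  intro x t
  unfold wf
  have e1 : x + 2 ^ (k0 + e) * t - 1 = x - 1 + (2 ^ e * t) * 2 ^ k0 := by ring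
  rw [e1, Int.add_mul_ediv_right _ _ (by positivity)]
  have e2 : (((x - 1) / 2 ^ k0 + 2 ^ e * t : ℤ) : ZMod (2 ^ e)) = ((x - 1) / 2 ^ k0 : ℤ) := by
    have : ((2 : ZMod (2 ^ e))) ^ e = 0 := by exact_mod_cast ZMod.natCast_self (2 ^ e)
    push_cast; rw [this]; ring
  rw [e2]
  by_cases h : (2 : ℤ) ^ k0 ∣ x - 1
  · rw [if_pos h, if_pos (dvd_add h (dvd_mul_left _ _))]
  · rw [if_neg h, if_neg fun hd => h ((dvd_add_left (dvd_mul_left _ _)).1 hd)]

theorem wf_inj (k0 e : ℕ) : Function.Injective (wf k0 e) := by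
  intro a b h
  funext r
  have := congrFun h (1 + (r.val : ℤ) * 2 ^ k0)
  unfold wf at this
  rw [add_sub_cancel_left, if_pos (dvd_mul_left _ _), if_pos (dvd_mul_left _ _),
    Int.mul_ediv_cancel _ (by positivity)] at this
  simpa using this

def we (m : ℕ → ℕ) (k0 e : ℕ) (a : ZMod (2 ^ e) → F3) : Gp m :=
  ⟨wf k0 e a, ∅, Per_le_V _ (wf_per k0 e a)⟩

def zz (m : ℕ → ℕ) (k0 e : ℕ) (c : ℕ → ZMod (2 ^ e) → F3) : ℕ → Gp m
  | 0 => 1
  | n + 1 => zz m k0 e c n * (tw m)^[n] (we m k0 e (c n))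

theorem zz_spec (k0 e : ℕ) (c : ℕ → ZMod (2 ^ e) → F3) (n : ℕ) :
    zz m k0 e c n ∈ traj (tw m) (Set.range (we m k0 e)) n ∧ (zz m k0 e c n).k = ∅ ∧
      ∀ x, (zz m k0 e c n).v x = ∑ j ∈ range n, U m x j * wf k0 e (c j) (x + j) := by
  induction n with
  | zero => exact ⟨rfl, rfl, fun x => rfl⟩
  | succ n ih =>
    refine ⟨mul_mem_traj _ ih.1 ⟨c n, rfl⟩, ?_, fun x => ?_⟩
    · rw [zz, mul_k, tw_iter_k, ih.2.1]; simp [we]
    · rw [zz, mul_v, ih.2.1, ch_empty, one_mul, Pi.add_apply, ih.2.2, tw_iter_v, sum_range_succ]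
      rfl

theorem tw_lower (hm1 : ∀ k, k < m k) (hm2 : Function.Injective m) (k0 e : ℕ)
    (hs : ∀ k, k0 ≤ k → k0 + e ≤ m k) (n : ℕ) :
    ((3 : ℝ) ^ (2 ^ e)) ^ n ≤ (traj (tw m) (Set.range (we m k0 e)) n).ncard := by
  have h1 := Set.ncard_le_ncard_of_injOn (s := (Set.univ : Set (Fin n → ZMod (2 ^ e) → F3)))
    (t := traj (tw m) (Set.range (we m k0 e)) n)
    (fun c => zz m k0 e (fun j => if h : j < n then c ⟨j, h⟩ else 0) n)
    (fun c _ => (zz_spec k0 e _ n).1)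
    (fun c _ c' _ h => by
      have h2 := indep m hm1 hm2 n (k0 + e) k0 hs
        (fun j x => wf k0 e (if h : j < n then c ⟨j, h⟩ else 0) x -
          wf k0 e (if h : j < n then c' ⟨j, h⟩ else 0) x)
        (fun j x t => by rw [wf_per, wf_per])
        (fun j x hx => by simp only [wf, if_neg hx, sub_zero])
        (fun x => by
          have := congrArg (fun g : Gp m => g.v x) h
          simp only [(zz_spec k0 e _ n).2.2] at this
          simp only [mul_sub, sum_sub_distrib]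
          rw [this, sub_self])
      funext j
      apply wf_inj k0 e
      funext x
      have := h2 j j.2 x
      simp only [dif_pos j.2] at this
      exact sub_eq_zero.1 this)
    (traj_finite _ (Set.finite_range _) n)
  rw [Set.ncard_univ, Nat.card_eq_fintype_card] at h1
  simp only [Fintype.card_pi, ZMod.card, prod_const, card_univ, Fintype.card_fin] at h1
  exact_mod_cast h1

theorem le_ent_res (hm1 : ∀ k, k < m k) (hm2 : Function.Injective m) (k0 e : ℕ)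
    (hs : ∀ k, k0 ≤ k → k0 + e ≤ m k) :
    ENNReal.ofReal (Real.log (3 ^ (2 ^ e))) ≤ ent (res (tw m) (HH m) tw_le) := by
  refine le_ent _ ((HH m).subtype ⁻¹' Set.range (we m k0 e))
    ((Set.finite_range _).preimage (HH m).subtype_injective.injOn) _ (by positivity) fun n => ?_
  rw [ncard_traj_res, Set.image_preimage_eq_of_subset]
  · exact tw_lower hm1 hm2 k0 e hs n
  · rintro _ ⟨a, rfl⟩
    exact ⟨⟨we m k0 e a, rfl⟩, rfl⟩

theorem le_ent_sh (hm1 : ∀ k, k < m k) (hm2 : Function.Injective m) (k0 e : ℕ)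
    (hs : ∀ k, k0 ≤ k → k0 + e ≤ m k) :
    ENNReal.ofReal (Real.log (3 ^ (2 ^ e))) ≤ ent (sh m 1) := by
  refine le_ent _ ((fun y => y * el m {0}) '' Set.range (we m k0 e))
    ((Set.finite_range _).image _) _ (by positivity) fun n => ?_
  refine (tw_lower hm1 hm2 k0 e hs n).trans ?_
  exact_mod_cast ncard_traj_conj (sh m 1) (tw m) _ tw_apply _ (Set.finite_range _) n

theorem ent_sh_top : ent (sh (fun k => 2 * k + 1) 1) = ⊤ := by
  refine ENNReal.eq_top_of_forall_nnreal_le fun r => ?_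
  obtain ⟨k0, hk⟩ := exists_nat_ge (r : ℝ)
  refine le_trans ?_ (le_ent_sh (m := fun k => 2 * k + 1) (fun k => by omega)
    (fun a b h => by simp only at h; omega) k0 (k0 + 1) (fun k h => by omega))
  rw [← ENNReal.ofReal_coe_nnreal]
  refine ENNReal.ofReal_le_ofReal (hk.trans ?_)
  rw [Real.log_pow]
  have h1 : (1 : ℝ) ≤ Real.log 3 := by
    rw [Real.le_log_iff_exp_le (by norm_num)]
    have := Real.exp_one_lt_d9
    linarith
  have h2 : (k0 : ℝ) ≤ ((2 ^ (k0 + 1) : ℕ) : ℝ) := by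
    have := Nat.lt_two_pow_self (n := k0 + 1)
    exact_mod_cast (by omega : k0 ≤ 2 ^ (k0 + 1))
  nlinarith [Nat.cast_nonneg (α := ℝ) k0]

end Pool.Agent.AlgEnt
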