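import Mathlib

namespace Pool.Agent.AlgEnt

open scoped Pointwise

variable {G : Type*} [Group G]

/-- The trajectory `T_n(φ,F) = F · φ(F) ⋯ φ^(n-1)(F)`. -/
def traj (φ : G →* G) (F : Set G) : ℕ → Set G
  | 0 => {1}
  | n + 1 => traj φ F n * (φ^[n] '' F)

/-- `H_alg(φ,F) = limsup log |T_n(φ,F)| / n`. -/
noncomputable def entF (φ : G →* G) (F : Set G) : ENNReal :=
  Filter.limsup (fun n : ℕ => ENNReal.ofReal (Real.log (traj φ F n).ncard / n)) Filter.atTop

/-- The algebraic entropy: the supremum of `H_alg(φ,F)` over finite sets `F` containing `1`. -/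
noncomputable def ent (φ : G →* G) : ENNReal :=
  ⨆ (F : Finset G) (_ : (1 : G) ∈ F), entF φ F

/-- The restriction of `φ` to an invariant subgroup. -/
def res (φ : G →* G) (H : Subgroup G) (hH : H ≤ H.comap φ) : H →* H :=
  (φ.comp H.subtype).codRestrict H (fun x => hH x.2)

/-- The endomorphism induced by `φ` on the quotient by an invariant normal subgroup. -/
def quo (φ : G →* G) (H : Subgroup G) [H.Normal] (hH : H ≤ H.comap φ) : G ⧸ H →* G ⧸ H :=
  QuotientGroup.map H H φ hH

end Pool.Agent.AlgEnt
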