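import Pool.Agent.P.MP_8d62fb_al.H7.Space

namespace Pool.Agent.AlgEnt

open Finset
open scoped symmDiff

section general

variable {G G' : Type*} [Group G] [Group G']

theorem iter_comm (ι : G →* G') (φ : G →* G) (φ' : G' →* G') (h : ∀ x, ι (φ x) = φ' (ι x))
    (n : ℕ) (x : G) : ι (φ^[n] x) = φ'^[n] (ι x) := by
  induction n with
  | zero => rfl
  | succ n ih => rw [Function.iterate_succ_apply', Function.iterate_succ_apply', h, ih]

theorem traj_image (ι : G →* G') (φ : G →* G) (φ' : G' →* G') (h : ∀ x, ι (φ x) = φ' (ι x))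
    (F : Set G) (n : ℕ) : ι '' traj φ F n = traj φ' (ι '' F) n := by
  induction n with
  | zero => simp [traj]
  | succ n ih =>
    rw [traj, traj, Set.image_mul, ih, Set.image_image, Set.image_image]
    congr 1
    exact Set.image_congr fun x _ => iter_comm ι φ φ' h n x

theorem res_comm (φ : G →* G) (H : Subgroup G) (hH : H ≤ H.comap φ) (x : H) :
    H.subtype (res φ H hH x) = φ (H.subtype x) := rfl

theorem quo_comm (φ : G →* G) (H : Subgroup G) [H.Normal] (hH : H ≤ H.comap φ) (x : G) :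
    QuotientGroup.mk' H (φ x) = quo φ H hH (QuotientGroup.mk' H x) := rfl

theorem ncard_traj_res (φ : G →* G) (H : Subgroup G) (hH : H ≤ H.comap φ) (F : Set H) (n : ℕ) :
    (traj (res φ H hH) F n).ncard = (traj φ (H.subtype '' F) n).ncard := by
  rw [← traj_image H.subtype _ φ (res_comm φ H hH),
    Set.ncard_image_of_injective _ H.subtype_injective]

end general

/-- The semidirect product of `V m` with the finite subsets of the integers. -/
@[ext] structure Gp (m : ℕ → ℕ) where
  v : E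
  k : Finset ℤ
  hv : v ∈ V m

variable {m : ℕ → ℕ}

instance : Mul (Gp m) :=
  ⟨fun a b => ⟨a.v + ch m a.k * b.v, a.k ∆ b.k, add_mem a.hv (ch_mul_V _ b.hv)⟩⟩

instance : One (Gp m) := ⟨⟨0, ∅, zero_mem _⟩⟩

instance : Inv (Gp m) := ⟨fun a => ⟨-(ch m a.k * a.v), a.k, neg_mem (ch_mul_V _ a.hv)⟩⟩

theorem mul_v (a b : Gp m) : (a * b).v = a.v + ch m a.k * b.v := rfl
theorem mul_k (a b : Gp m) : (a * b).k = a.k ∆ b.k := rfl
theorem one_v : (1 : Gp m).v = 0 := rfl
theorem one_k : (1 : Gp m).k = ∅ := rfl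
theorem inv_v (a : Gp m) : a⁻¹.v = -(ch m a.k * a.v) := rfl
theorem inv_k (a : Gp m) : a⁻¹.k = a.k := rfl

theorem sd_empty (k : Finset ℤ) : k ∆ ∅ = k := by ext x; simp [mem_symmDiff]
theorem empty_sd (k : Finset ℤ) : ∅ ∆ k = k := by ext x; simp [mem_symmDiff]
theorem sd_self (k : Finset ℤ) : k ∆ k = ∅ := by ext x; simp [mem_symmDiff]

instance : Group (Gp m) := Group.ofLeftAxioms
  (fun a b c => by
    refine Gp.ext ?_ ?_
    · simp only [mul_v, mul_k, ch_symm]; ring
    · simp only [mul_k, symmDiff_assoc])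
  (fun a => by
    refine Gp.ext ?_ ?_
    · simp only [mul_v, one_v, one_k, ch_empty]; ring
    · simp only [mul_k, one_k, empty_sd])
  (fun a => by
    refine Gp.ext ?_ ?_
    · simp only [mul_v, inv_v, inv_k, one_v]; ring
    · simp only [mul_k, inv_k, one_k, sd_self])

theorem three_eq (v : E) : v + v + v = 0 := by
  funext n
  have : ∀ a : F3, a + a + a = 0 := by decide
  exact this _

theorem pow_six (g : Gp m) : g ^ 6 = 1 := by
  have h1 : (g * g).k = ∅ := sd_self _
  have h2 : g ^ 6 = g * g * (g * g) * (g * g) := by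
    simp only [pow_succ, pow_zero, one_mul, mul_assoc]
  rw [h2]
  generalize g * g = x at h1
  refine Gp.ext ?_ ?_
  · simp only [mul_v, mul_k, h1, sd_self, ch_empty, one_mul, one_v, three_eq]
  · simp only [mul_k, h1, sd_self, one_k]

/-- The shift. -/
def sh (m : ℕ → ℕ) (c : ℤ) : Gp m →* Gp m := MonoidHom.mk'
  (fun a => ⟨shE c a.v, a.k.image (· + c), shE_V c a.hv⟩)
  (fun a b => by
    refine Gp.ext ?_ ?_
    · simp only [mul_v, map_add, shE_mul, shE_ch]
    · simp only [mul_k]
      exact image_symmDiff _ _ (add_left_injective c))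

theorem sh_v (c : ℤ) (a : Gp m) : (sh m c a).v = shE c a.v := rfl
theorem sh_k (c : ℤ) (a : Gp m) : (sh m c a).k = a.k.image (· + c) := rfl

theorem sh_sh (c d : ℤ) (a : Gp m) : sh m c (sh m d a) = sh m (d + c) a := by
  refine Gp.ext ?_ ?_
  · funext n; simp only [sh_v, shE_apply]; congr 1; ring
  · simp only [sh_k, image_image]
    exact image_congr fun x _ => add_assoc _ _ _

theorem sh_zero (a : Gp m) : sh m 0 a = a := by
  refine Gp.ext ?_ ?_
  · funext n; simp only [sh_v, shE_apply, add_zero]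
  · simp [sh_k]

theorem sh_iter (n : ℕ) (a : Gp m) : (sh m 1)^[n] a = sh m n a := by
  induction n with
  | zero => exact (sh_zero a).symm
  | succ n ih => rw [Function.iterate_succ_apply', ih, sh_sh]; push_cast; rfl

theorem sh_bij (c : ℤ) : Function.Bijective (sh m c) :=
  Function.bijective_iff_has_inverse.2 ⟨sh m (-c), fun a => by rw [sh_sh, add_neg_cancel, sh_zero],
    fun a => by rw [sh_sh, neg_add_cancel, sh_zero]⟩

/-- The element `(0, k)`. -/
def el (m : ℕ → ℕ) (k : Finset ℤ) : Gp m := ⟨0, k, zero_mem _⟩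

/-- The shift twisted by an inner automorphism. -/
def tw (m : ℕ → ℕ) : Gp m →* Gp m := (MulAut.conj (el m {0})).toMonoidHom.comp (sh m 1)

theorem tw_apply (a : Gp m) : tw m a = el m {0} * sh m 1 a * (el m {0})⁻¹ := rfl

theorem tw_v (a : Gp m) : (tw m a).v = ph m 0 * shE 1 a.v := by
  simp [tw_apply, mul_v, inv_v, el, sh_v, ch]

theorem tw_k (a : Gp m) : (tw m a).k = a.k.image (· + 1) := by
  simp only [tw_apply, mul_k, inv_k, el, sh_k]
  rw [symmDiff_comm {0}, symmDiff_assoc, sd_self, sd_empty]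

theorem tw_bij : Function.Bijective (tw m) :=
  (MulAut.conj (el m {0})).bijective.comp (sh_bij 1)

theorem tw_iter_k (n : ℕ) (a : Gp m) : ((tw m)^[n] a).k = a.k.image (· + (n : ℤ)) := by
  induction n with
  | zero => simp
  | succ n ih =>
    rw [Function.iterate_succ_apply', tw_k, ih, image_image]
    exact image_congr fun x _ => by push_cast; exact add_assoc _ _ _

theorem tw_iter_v (n : ℕ) (a : Gp m) (x : ℤ) : ((tw m)^[n] a).v x = U m x n * a.v (x + n) := by
  induction n generalizing x with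
  | zero => simp [U]
  | succ n ih =>
    rw [Function.iterate_succ_apply', tw_v, Pi.mul_apply, shE_apply, ih]
    unfold U ph
    rw [prod_range_succ', mul_comm _ (sg m (x + (0 : ℕ))), mul_assoc]
    push_cast
    congr 2
    · exact prod_congr rfl fun i _ => by congr 1; ring
    · congr 1; ring

/-- The normal subgroup `V m`. -/
def HH (m : ℕ → ℕ) : Subgroup (Gp m) where
  carrier := {a | a.k = ∅}
  mul_mem' := fun {a b} ha hb => by
    show a.k ∆ b.k = ∅
    rw [show a.k = ∅ from ha, show b.k = ∅ from hb, sd_self]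
  one_mem' := rfl
  inv_mem' := fun ha => ha

theorem mem_HH {a : Gp m} : a ∈ HH m ↔ a.k = ∅ := Iff.rfl

instance : (HH m).Normal := ⟨fun a ha g => by
  rw [mem_HH] at ha ⊢
  rw [mul_k, mul_k, inv_k, ha, sd_empty, sd_self]⟩

theorem HH_comm (x : Gp m) (hx : x ∈ HH m) (y : Gp m) (hy : y ∈ HH m) : x * y = y * x := by
  rw [mem_HH] at hx hy
  refine Gp.ext ?_ ?_
  · simp only [mul_v, hx, hy, ch_empty, one_mul, add_comm]
  · simp only [mul_k, hx, hy]

theorem mk_eq {x y : Gp m} :
    QuotientGroup.mk' (HH m) x = QuotientGroup.mk' (HH m) y ↔ x.k = y.k := by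
  rw [QuotientGroup.mk'_apply, QuotientGroup.mk'_apply, QuotientGroup.eq, mem_HH, mul_k, inv_k]
  exact symmDiff_eq_empty

theorem quo_comm' (x y : Gp m ⧸ HH m) : x * y = y * x := by
  obtain ⟨a, rfl⟩ := QuotientGroup.mk'_surjective _ x
  obtain ⟨b, rfl⟩ := QuotientGroup.mk'_surjective _ y
  rw [← map_mul, ← map_mul, mk_eq, mul_k, mul_k, symmDiff_comm]

theorem sh_le : HH m ≤ (HH m).comap (sh m 1) := fun a ha => by
  rw [Subgroup.mem_comap, mem_HH, sh_k, mem_HH.1 ha, image_empty]

theorem tw_le : HH m ≤ (HH m).comap (tw m) := fun a ha => by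
  rw [Subgroup.mem_comap, mem_HH, tw_k, mem_HH.1 ha, image_empty]

theorem map_HH (φ : Gp m →* Gp m) (hb : Function.Bijective φ)
    (hk : ∀ a, (φ a).k = a.k.image (· + 1)) : (HH m).map φ = HH m := by
  ext x
  constructor
  · rintro ⟨a, ha, rfl⟩
    rw [mem_HH, hk, mem_HH.1 ha, image_empty]
  · intro hx
    obtain ⟨a, rfl⟩ := hb.2 x
    rw [mem_HH, hk, image_eq_empty] at hx
    exact ⟨a, hx, rfl⟩

theorem exists_w {F : Set (Gp m)} (hF : F.Finite) :
    ∃ w : ℕ, ∀ y ∈ F, y.k ⊆ Ico (-(w : ℤ)) w := by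
  obtain ⟨w, hw⟩ := ((hF.biUnion fun y _ => y.k.finite_toSet).image Int.natAbs).bddAbove
  refine ⟨w + 1, fun y hy j hj => ?_⟩
  have : j.natAbs ≤ w := hw ⟨j, Set.mem_biUnion hy (mem_coe.2 hj), rfl⟩
  rw [mem_Ico]; push_cast; omega

end Pool.Agent.AlgEnt
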