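import Pool.Agent.P.MP_8d62fb_al.H7.Sign

namespace Pool.Agent.AlgEnt

open Finset

/-- Partial products of the sign sequence. -/
def U (m : ℕ → ℕ) (n : ℤ) (j : ℕ) : F3 := ∏ i ∈ range j, sg m (n + i)

theorem U_succ (m : ℕ → ℕ) (n : ℤ) (j : ℕ) : U m n (j + 1) = U m n j * sg m (n + j) :=
  prod_range_succ _ _

theorem U_sq (m : ℕ → ℕ) (n : ℤ) (j : ℕ) : U m n j * U m n j = 1 := by
  unfold U; rw [← prod_mul_distrib]; exact prod_eq_one fun i _ => sg_sq _ _

def tail (m : ℕ → ℕ) (d : ℕ → F3) (N : ℕ) (n h : ℤ) : F3 :=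
  ∑ j ∈ range N, if h < n + j then d j * U m n j else 0

theorem val_eq {k : ℕ} {h : ℤ} (h1 : (2 : ℤ) ^ k ∣ h) (h2 : ¬ (2 : ℤ) ^ (k + 1) ∣ h) :
    padicValInt 2 h = k := by
  have h0 : h ≠ 0 := by rintro rfl; exact h2 (dvd_zero _)
  have a := ((padicValInt_dvd_iff (p := 2) _ _).1 h1).resolve_left h0
  have b := val_lt h2
  omega

theorem block_flip (m : ℕ → ℕ) (hm1 : ∀ k, k < m k) (hm2 : Function.Injective m) (k : ℕ) (h : ℤ)
    (h1 : (2 : ℤ) ^ k ∣ h) (h2 : ¬ (2 : ℤ) ^ (k + 1) ∣ h) :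
    ∃ δ : ℤ, -1 ≤ δ ∧ ∀ p : ℤ, h - 2 ^ k < p → p < h + 2 ^ k →
      sg m (p + 2 ^ (m k) * δ) = if p = h then - sg m p else sg m p := by
  have hP : (0 : ℤ) < 2 ^ m k := by positivity
  have hk : (0 : ℤ) < 2 ^ k := by positivity
  have ha : (2 : ℤ) ^ (k + 1) ∣ h - 2 ^ k := by
    obtain ⟨c, rfl⟩ := h1
    rcases Int.emod_two_eq_zero_or_one c with hc | hc
    · exfalso; apply h2
      exact ⟨c / 2, by rw [pow_succ, mul_assoc]; congr 1; omega⟩
    · refine ⟨c / 2, ?_⟩
      have : c - 1 = 2 * (c / 2) := by omega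
      rw [pow_succ, mul_assoc, ← this]; ring
  obtain ⟨δ, hδ0, hδ⟩ := sg_flip m (m k) ((h - 2 ^ k) / 2 ^ m k)
  refine ⟨δ, hδ0, fun p hp1 hp2 => ?_⟩
  have hdiv : (2 : ℤ) ^ (k + 1) ∣ 2 ^ m k := pow_dvd_pow 2 (hm1 k)
  have hr0 := Int.emod_nonneg (h - 2 ^ k) hP.ne'
  have hr1 := Int.emod_lt_of_pos (h - 2 ^ k) hP
  have hdec := Int.emod_add_mul_ediv (h - 2 ^ k) (2 ^ m k)
  have hr2 : (h - 2 ^ k) % 2 ^ m k + 2 ^ (k + 1) ≤ 2 ^ m k := by
    have hd : (2 : ℤ) ^ (k + 1) ∣ 2 ^ m k - (h - 2 ^ k) % 2 ^ m k :=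
      dvd_sub hdiv (by rw [Int.emod_def]; exact dvd_sub ha (hdiv.mul_right _))
    have := Int.le_of_dvd (by omega) hd
    omega
  have hp : p = (h - 2 ^ k) / 2 ^ m k * 2 ^ m k + ((h - 2 ^ k) % 2 ^ m k + (p - (h - 2 ^ k))) := by
    rw [mul_comm]; omega
  have h21 : (2 : ℤ) ^ (k + 1) = 2 * 2 ^ k := by ring
  have := hδ ((h - 2 ^ k) % 2 ^ m k + (p - (h - 2 ^ k))) (by omega) (by omega)
  rw [← hp] at this
  rw [this]
  by_cases e : p = h
  · rw [if_pos e, if_pos (by rw [e, val_eq h1 h2])]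
  · rw [if_neg e, if_neg]
    intro hv
    have hv' : padicValInt 2 p = k := hm2 hv
    have hd : (2 : ℤ) ^ k ∣ p := (padicValInt_dvd_iff (p := 2) _ _).2 (Or.inr hv'.ge)
    have hd' : (2 : ℤ) ^ k ∣ p - h := dvd_sub hd h1
    rcases lt_or_gt_of_ne e with hl | hl
    · have := Int.le_of_dvd (by omega) ((dvd_neg).2 hd'); omega
    · have := Int.le_of_dvd (by omega) hd'; omega

theorem tail_step (m : ℕ → ℕ) (hm1 : ∀ k, k < m k) (hm2 : Function.Injective m) (d : ℕ → F3)
    (N k : ℕ) (n h : ℤ) (h1 : (2 : ℤ) ^ k ∣ h) (h2 : ¬ (2 : ℤ) ^ (k + 1) ∣ h) :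
    ∃ δ : ℤ, -1 ≤ δ ∧ (tail m d N n (h - 2 ^ k) = tail m d N n (h + 2 ^ k) →
      tail m d N (n + 2 ^ m k * δ) (h - 2 ^ k + 2 ^ m k * δ) =
        tail m d N (n + 2 ^ m k * δ) (h + 2 ^ k + 2 ^ m k * δ) →
      tail m d N n h = tail m d N n (h + 2 ^ k)) := by
  obtain ⟨δ, hδ0, hδ⟩ := block_flip m hm1 hm2 k h h1 h2
  refine ⟨δ, hδ0, fun e1 e2 => ?_⟩
  have hk : (0 : ℤ) < 2 ^ k := by positivity
  by_cases hn : h < n
  · rw [← e1]
    refine sum_congr rfl fun j _ => ?_
    rw [if_pos (by omega), if_pos (by omega)]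
  push Not at hn
  set n' := n + 2 ^ m k * δ with hn'
  set j0 := (h - 2 ^ k + 1 - n).toNat with hj0
  set c := U m n j0 * U m n' j0 with hc
  have hcc : c * c = 1 := by
    rw [hc]; linear_combination (U m n' j0 * U m n' j0) * U_sq m n j0 + U_sq m n' j0
  have hU : ∀ j, j0 ≤ j → n + j ≤ h + 2 ^ k →
      U m n' j = c * U m n j * (if h < n + j then -1 else 1) := by
    intro j hj
    induction j, hj using Nat.le_induction with
    | base =>
      intro _
      rw [if_neg (by omega), hc]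
      linear_combination (-U m n' j0) * U_sq m n j0
    | succ j hj ih =>
      intro hle
      push_cast at hle
      rw [U_succ, U_succ, ih (by omega)]
      have := hδ (n + j) (by omega) (by omega)
      rw [show n' + j = n + j + 2 ^ m k * δ by rw [hn']; ring, this]
      push_cast
      by_cases e : n + j = h
      · rw [if_pos e, if_neg (by omega), if_pos (by omega)]; ring
      · rw [if_neg e]
        by_cases e' : h < n + j
        · rw [if_pos e', if_pos (by omega)]; ring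
        · rw [if_neg e', if_neg (by omega)]; ring
  have key : tail m d N n' (h - 2 ^ k + 2 ^ m k * δ) - tail m d N n' (h + 2 ^ k + 2 ^ m k * δ) =
      c * (tail m d N n (h - 2 ^ k) - 2 * tail m d N n h + tail m d N n (h + 2 ^ k)) := by
    unfold tail
    rw [← sum_sub_distrib, mul_sum, ← sum_sub_distrib, ← sum_add_distrib, mul_sum]
    refine sum_congr rfl fun j _ => ?_
    by_cases a1 : h - 2 ^ k < n + j
    · by_cases a3 : h + 2 ^ k < n + j
      · rw [if_pos (by omega), if_pos (by omega), if_pos a1, if_pos (by omega), if_pos a3]; ring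
      · rw [if_pos (by omega), if_neg (by omega), if_pos a1, if_neg a3, hU j (by omega) (by omega)]
        by_cases a2 : h < n + j
        · rw [if_pos a2, if_pos a2]; ring
        · rw [if_neg a2, if_neg a2]; ring
    · rw [if_neg (by omega), if_neg (by omega), if_neg a1, if_neg (by omega), if_neg (by omega)]
      ring
  rw [e2, e1, sub_self] at key
  have h3 : (3 : F3) = 0 := by decide
  linear_combination (-c) * key +
    (2 * tail m d N n h - 2 * tail m d N n (h + 2 ^ k)) * hcc +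
    (tail m d N n h - tail m d N n (h + 2 ^ k)) * h3

theorem tail_zero (m : ℕ → ℕ) (hm1 : ∀ k, k < m k) (hm2 : Function.Injective m) (d : ℕ → F3)
    (N s k0 : ℕ) (hs : ∀ k, k0 ≤ k → s ≤ m k) (b : ℤ)
    (hrel : ∀ n : ℤ, (2 : ℤ) ^ s ∣ n - b → ∑ j ∈ range N, d j * U m n j = 0) :
    ∃ B : ℤ, ∀ n : ℤ, B ≤ n → (2 : ℤ) ^ s ∣ n - b → ∀ h : ℤ, (2 : ℤ) ^ k0 ∣ h →
      tail m d N n h = 0 := by
  have lo : ∀ n : ℤ, (2 : ℤ) ^ s ∣ n - b → ∀ h : ℤ, h < n → tail m d N n h = 0 := by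
    intro n hn h hh
    rw [← hrel n hn]
    exact sum_congr rfl fun j _ => if_pos (by omega)
  have hi : ∀ n h : ℤ, n + N ≤ h → tail m d N n h = 0 := by
    intro n h hh
    refine sum_eq_zero fun j hj => if_neg ?_
    have := mem_range.1 hj
    omega
  have sh : ∀ k, k0 ≤ k → ∀ n δ : ℤ, (2 : ℤ) ^ s ∣ n - b → (2 : ℤ) ^ s ∣ n + 2 ^ m k * δ - b := by
    intro k hk n δ hn
    have : n + 2 ^ m k * δ - b = n - b + 2 ^ m k * δ := by ring
    rw [this]
    exact dvd_add hn ((pow_dvd_pow 2 (hs k hk)).mul_right _)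
  have main : ∀ t k, k0 ≤ k → N ≤ k + t → ∃ B : ℤ, ∀ n : ℤ, B ≤ n → (2 : ℤ) ^ s ∣ n - b →
      ∀ h : ℤ, (2 : ℤ) ^ k ∣ h → tail m d N n h = 0 := by
    intro t
    induction t with
    | zero =>
      intro k hk hN
      refine ⟨1, fun n hn hb h hh => ?_⟩
      by_cases a1 : h < n
      · exact lo n hb h a1
      by_cases a2 : n + N ≤ h
      · exact hi n h a2
      have h0 : h ≠ 0 := by omega
      set v := padicValInt 2 h with hv
      have hkv : k ≤ v := ((padicValInt_dvd_iff (p := 2) _ _).1 hh).resolve_left h0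
      have d1 : (2 : ℤ) ^ v ∣ h := (padicValInt_dvd_iff (p := 2) _ _).2 (Or.inr le_rfl)
      have d2 : ¬ (2 : ℤ) ^ (v + 1) ∣ h := fun hd => by
        have := ((padicValInt_dvd_iff (p := 2) _ _).1 hd).resolve_left h0
        omega
      have hNv : (N : ℤ) < 2 ^ v := by
        have : N < 2 ^ v := lt_of_le_of_lt (by omega) (Nat.lt_two_pow_self (n := v))
        exact_mod_cast this
      obtain ⟨δ, -, hδ⟩ := tail_step m hm1 hm2 d N v n h d1 d2
      rw [hδ, hi _ _ (by omega)]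
      · rw [lo n hb _ (by omega), hi _ _ (by omega)]
      · rw [lo _ (sh v (by omega) n δ hb) _ (by omega), hi _ _ (by omega)]
    | succ t ih =>
      intro k hk hN
      obtain ⟨B, hB⟩ := ih (k + 1) (by omega) (by omega)
      refine ⟨B + 2 ^ m k, fun n hn hb h hh => ?_⟩
      have hP : (0 : ℤ) < 2 ^ m k := by positivity
      by_cases d2 : (2 : ℤ) ^ (k + 1) ∣ h
      · exact hB n (by omega) hb h d2
      have ha : (2 : ℤ) ^ (k + 1) ∣ h - 2 ^ k := by
        obtain ⟨c, rfl⟩ := hh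
        rcases Int.emod_two_eq_zero_or_one c with hc | hc
        · exfalso; apply d2
          exact ⟨c / 2, by rw [pow_succ, mul_assoc]; congr 1; omega⟩
        · refine ⟨c / 2, ?_⟩
          have : c - 1 = 2 * (c / 2) := by omega
          rw [pow_succ, mul_assoc, ← this]; ring
      have ha' : (2 : ℤ) ^ (k + 1) ∣ h + 2 ^ k := by
        have : h + 2 ^ k = h - 2 ^ k + 2 ^ (k + 1) := by ring
        rw [this]; exact dvd_add ha dvd_rfl
      obtain ⟨δ, hδ0, hδ⟩ := tail_step m hm1 hm2 d N k n h hh d2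
      have hd : (2 : ℤ) ^ (k + 1) ∣ 2 ^ m k * δ := (pow_dvd_pow 2 (hm1 k)).mul_right _
      have hn' : B ≤ n + 2 ^ m k * δ := by nlinarith
      rw [hδ, hB n (by omega) hb _ ha']
      · rw [hB n (by omega) hb _ ha, hB n (by omega) hb _ ha']
      · rw [hB _ hn' (sh k hk n δ hb) _ (dvd_add ha hd), hB _ hn' (sh k hk n δ hb) _ (dvd_add ha' hd)]
  exact main N k0 le_rfl (by omega)

/-- Independence: a twisted trajectory relation with coefficients that are `2^s`-periodic and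
supported on `x ≡ 1 mod 2^k0` is trivial. -/
theorem indep (m : ℕ → ℕ) (hm1 : ∀ k, k < m k) (hm2 : Function.Injective m)
    (N s k0 : ℕ) (hs : ∀ k, k0 ≤ k → s ≤ m k) (w : ℕ → ℤ → F3)
    (hper : ∀ j x t, w j (x + 2 ^ s * t) = w j x)
    (hsup : ∀ j x, ¬ (2 : ℤ) ^ k0 ∣ x - 1 → w j x = 0)
    (hrel : ∀ n : ℤ, ∑ j ∈ range N, U m n j * w j (n + j) = 0) :
    ∀ j < N, ∀ x, w j x = 0 := by
  intro j hj x
  by_cases hx : (2 : ℤ) ^ k0 ∣ x - 1
  swap
  · exact hsup j x hx
  set b := x - j with hb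
  have hd : ∀ n : ℤ, (2 : ℤ) ^ s ∣ n - b → ∀ i : ℕ, w i (n + i) = w i (b + i) := by
    rintro n ⟨t, ht⟩ i
    rw [← hper i (b + i) t]; congr 1; linarith
  obtain ⟨B, hB⟩ := tail_zero m hm1 hm2 (fun i => w i (b + i)) N s k0 hs b (by
    intro n hn
    rw [← hrel n]
    exact sum_congr rfl fun i _ => by rw [hd n hn i, mul_comm])
  have hP : (0 : ℤ) < 2 ^ (s + k0) := by positivity
  have hk : (0 : ℤ) < 2 ^ k0 := by positivity
  set n := b + 2 ^ (s + k0) * |B - b| with hn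
  have hn1 : B ≤ n := by
    have := le_abs_self (B - b)
    nlinarith [abs_nonneg (B - b)]
  have hn2 : (2 : ℤ) ^ s ∣ n - b := by
    rw [hn, add_sub_cancel_left]; exact (pow_dvd_pow 2 (by omega)).mul_right _
  have hn3 : (2 : ℤ) ^ k0 ∣ n - b := by
    rw [hn, add_sub_cancel_left]; exact (pow_dvd_pow 2 (by omega)).mul_right _
  have hh : (2 : ℤ) ^ k0 ∣ n + j - 1 := by
    have : n + j - 1 = n - b + (x - 1) := by rw [hb]; ring
    rw [this]; exact dvd_add hn3 hx
  have t1 := hB n hn1 hn2 _ hh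
  have t2 := hB n hn1 hn2 _ (dvd_add hh dvd_rfl)
  have key : tail m (fun i => w i (b + i)) N n (n + j - 1) -
      tail m (fun i => w i (b + i)) N n (n + j - 1 + 2 ^ k0) = w j (b + j) * U m n j := by
    unfold tail
    rw [← sum_sub_distrib, sum_eq_single j]
    · rw [if_pos (by omega), if_neg (by omega), sub_zero]
    · intro i _ hij
      by_cases a1 : n + j - 1 < n + i
      · by_cases a2 : n + j - 1 + 2 ^ k0 < n + i
        · rw [if_pos a1, if_pos a2, sub_self]
        · rw [if_pos a1, if_neg a2, sub_zero]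
          show w i (b + i) * U m n i = 0
          rw [hsup i (b + i), zero_mul]
          intro hdv
          have : (2 : ℤ) ^ k0 ∣ (i : ℤ) - j := by
            have e : (i : ℤ) - j = b + i - 1 - (x - 1) := by rw [hb]; ring
            rw [e]; exact dvd_sub hdv hx
          have := Int.le_of_dvd (by omega) this
          omega
      · rw [if_neg a1, if_neg (by omega), sub_self]
    · intro h; exact absurd (mem_range.2 hj) h
  rw [t1, t2, sub_self] at key
  have e : b + j = x := by rw [hb]; ring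
  rw [e] at key
  linear_combination (-U m n j) * key - w j x * U_sq m n j

end Pool.Agent.AlgEnt
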