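import Mathlib

namespace Pool.Agent.AlgEnt

abbrev F3 := ZMod 3

/-- Paperfolding-type sign: binary digit number `m (v_2 n)` of `n`. -/
def sg (m : ℕ → ℕ) (n : ℤ) : F3 :=
  if (n / 2 ^ (m (padicValInt 2 n))) % 2 = 0 then 1 else -1

theorem sg_sq (m : ℕ → ℕ) (n : ℤ) : sg m n * sg m n = 1 := by
  unfold sg; split_ifs <;> simp

theorem val_lt {s : ℕ} {n : ℤ} (h : ¬ (2 : ℤ) ^ s ∣ n) : padicValInt 2 n < s := by
  by_contra hc
  exact h ((padicValInt_dvd_iff (p := 2) s n).2 (Or.inr (not_lt.1 hc)))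

theorem val_add {s : ℕ} {n : ℤ} (h : ¬ (2 : ℤ) ^ s ∣ n) (t : ℤ) :
    padicValInt 2 (n + 2 ^ s * t) = padicValInt 2 n := by
  have h0 : n ≠ 0 := by rintro rfl; exact h (dvd_zero _)
  have h' : ¬ (2 : ℤ) ^ s ∣ n + 2 ^ s * t := fun hd =>
    h ((dvd_add_left (dvd_mul_right _ _)).1 hd)
  have h0' : n + 2 ^ s * t ≠ 0 := by intro e; rw [e] at h'; exact h' (dvd_zero _)
  have key : ∀ k ≤ s, ((2 : ℤ) ^ k ∣ n + 2 ^ s * t ↔ (2 : ℤ) ^ k ∣ n) := fun k hk =>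
    dvd_add_left ((pow_dvd_pow 2 hk).mul_right t)
  apply le_antisymm
  · have := (key _ (val_lt h').le).1
      ((padicValInt_dvd_iff (p := 2) _ _).2 (Or.inr le_rfl))
    exact ((padicValInt_dvd_iff (p := 2) _ _).1 this).resolve_left h0
  · have := (key _ (val_lt h).le).2
      ((padicValInt_dvd_iff (p := 2) _ _).2 (Or.inr le_rfl))
    exact ((padicValInt_dvd_iff (p := 2) _ _).1 this).resolve_left h0'

theorem div_par {a M : ℕ} (h : a < M) (n t : ℤ) :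
    ((n + 2 ^ M * t) / 2 ^ a) % 2 = (n / 2 ^ a) % 2 := by
  obtain ⟨e, rfl⟩ := Nat.exists_eq_add_of_lt h
  have : n + 2 ^ (a + e + 1) * t = n + (2 * (2 ^ e * t)) * 2 ^ a := by ring
  rw [this, Int.add_mul_ediv_right _ _ (by positivity)]
  omega

theorem sg_per (m : ℕ → ℕ) {s M : ℕ} (hs : s ≤ M) (hm : ∀ k < s, m k < M) {n : ℤ}
    (h : ¬ (2 : ℤ) ^ s ∣ n) (t : ℤ) : sg m (n + 2 ^ M * t) = sg m n := by
  have h' : ¬ (2 : ℤ) ^ M ∣ n := fun hd => h ((pow_dvd_pow 2 hs).trans hd)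
  unfold sg
  rw [val_add h' t, div_par (hm _ (val_lt h))]

theorem sg_flip (m : ℕ → ℕ) (M : ℕ) (q : ℤ) : ∃ δ : ℤ, -1 ≤ δ ∧ ∀ r : ℤ, 0 < r → r < 2 ^ M →
    sg m (q * 2 ^ M + r + 2 ^ M * δ) =
      if m (padicValInt 2 (q * 2 ^ M + r)) = M then - sg m (q * 2 ^ M + r)
      else sg m (q * 2 ^ M + r) := by
  obtain ⟨δ, hδ0, hδ, hδ2⟩ : ∃ δ : ℤ, -1 ≤ δ ∧ (q + δ) / 2 = q / 2 ∧ (q + δ) % 2 ≠ q % 2 := by
    rcases Int.emod_two_eq_zero_or_one q with h | h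
    · exact ⟨1, by omega, by omega, by omega⟩
    · exact ⟨-1, by omega, by omega, by omega⟩
  refine ⟨δ, hδ0, fun r hr0 hr => ?_⟩
  have hP : (0 : ℤ) < 2 ^ M := by positivity
  have hnd : ¬ (2 : ℤ) ^ M ∣ q * 2 ^ M + r := by
    intro hd
    have := (dvd_add_right (dvd_mul_left _ _)).1 hd
    exact absurd (Int.le_of_dvd hr0 this) (not_le.2 hr)
  have hq : ∀ x : ℤ, (x * 2 ^ M + r) / 2 ^ M = x := by
    intro x
    rw [add_comm, Int.add_mul_ediv_right _ _ hP.ne', Int.ediv_eq_zero_of_lt hr0.le hr, zero_add]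
  have he : q * 2 ^ M + r + 2 ^ M * δ = (q + δ) * 2 ^ M + r := by ring
  unfold sg
  rw [val_add hnd δ]
  set a := m (padicValInt 2 (q * 2 ^ M + r))
  rcases lt_trichotomy a M with h | h | h
  · rw [if_neg h.ne, div_par h]
  · rw [if_pos h, h, he, hq, hq]
    rcases Int.emod_two_eq_zero_or_one q with h1 | h1
    · rw [if_neg (by omega), if_pos h1]
    · rw [if_pos (by omega), if_neg (by omega), neg_neg]
  · rw [if_neg h.ne']
    obtain ⟨e, he'⟩ := Nat.exists_eq_add_of_lt h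
    have hd : ∀ x : ℤ, (x * 2 ^ M + r) / 2 ^ a = x / 2 / 2 ^ e := by
      intro x
      rw [he', show (2 : ℤ) ^ (M + e + 1) = 2 ^ M * (2 * 2 ^ e) by ring,
        ← Int.ediv_ediv_of_nonneg hP.le, hq, ← Int.ediv_ediv_of_nonneg (by norm_num)]
    rw [he, hd, hd, hδ]

end Pool.Agent.AlgEnt
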