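import Pool.Agent.P.MP_8d62fb_al.H7.Indep
import Pool.Agent.P.MP_8d62fb_al.H7.Basic

namespace Pool.Agent.AlgEnt

open Finset
open scoped symmDiff

abbrev E := ℤ → F3

def ph (m : ℕ → ℕ) (j : ℤ) : E := fun n => sg m (n + j)

def ch (m : ℕ → ℕ) (k : Finset ℤ) : E := ∏ j ∈ k, ph m j

variable {m : ℕ → ℕ}

theorem ph_sq (j : ℤ) : ph m j * ph m j = 1 := by
  funext n; exact sg_sq _ _

theorem ch_sq (k : Finset ℤ) : ch m k * ch m k = 1 := by
  unfold ch; rw [← prod_mul_distrib]; exact prod_eq_one fun j _ => ph_sq j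

@[simp] theorem ch_empty : ch m ∅ = 1 := rfl

theorem ch_union {k k' : Finset ℤ} (h : Disjoint k k') : ch m (k ∪ k') = ch m k * ch m k' :=
  prod_union h

theorem ch_symm (k k' : Finset ℤ) : ch m (k ∆ k') = ch m k * ch m k' := by
  have h1 : ch m (k ∪ k') * ch m (k ∩ k') = ch m k * ch m k' := prod_union_inter
  have h2 : k ∪ k' = k ∆ k' ∪ k ∩ k' := by
    ext x; simp only [mem_union, mem_symmDiff, mem_inter]; tauto
  have h3 : Disjoint (k ∆ k') (k ∩ k') := by
    rw [disjoint_left]; intro x; simp only [mem_symmDiff, mem_inter]; tauto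
  rw [← h1, h2, ch_union h3, mul_assoc, ch_sq, mul_one]

def Per (s : ℕ) : Submodule F3 E where
  carrier := {p | ∀ x t : ℤ, p (x + 2 ^ s * t) = p x}
  add_mem' := fun ha hb x t => by simp only [Pi.add_apply, ha x t, hb x t]
  zero_mem' := fun _ _ => rfl
  smul_mem' := fun c p hp x t => by simp only [Pi.smul_apply, hp x t]

theorem mem_Per {s : ℕ} {p : E} : p ∈ Per s ↔ ∀ x t : ℤ, p (x + 2 ^ s * t) = p x := Iff.rfl

theorem Per_mono {s s' : ℕ} (h : s ≤ s') : Per s ≤ Per s' := by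
  intro p hp x t
  obtain ⟨e, rfl⟩ := Nat.exists_eq_add_of_le h
  rw [pow_add, mul_assoc]; exact hp x _

theorem Per_eq {s : ℕ} {p : E} (hp : p ∈ Per s) {x y : ℤ} (h : (2 : ℤ) ^ s ∣ x - y) :
    p x = p y := by
  obtain ⟨t, ht⟩ := h
  rw [← hp y t]; congr 1; linarith

theorem one_mem_Per (s : ℕ) : (1 : E) ∈ Per s := fun _ _ => rfl

def B (m : ℕ → ℕ) (s : ℕ) (a b : ℤ) : Submodule F3 E :=
  Per s ⊔ Submodule.span F3 (ph m '' Set.Ico a b)

theorem B_mono {s s' : ℕ} {a b a' b' : ℤ} (h : s ≤ s') (ha : a' ≤ a) (hb : b ≤ b') :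
    B m s a b ≤ B m s' a' b' :=
  sup_le_sup (Per_mono h) (Submodule.span_mono (Set.image_mono (Set.Ico_subset_Ico ha hb)))

theorem Per_le_B (s : ℕ) (a b : ℤ) : Per s ≤ B m s a b := le_sup_left

theorem ph_mem_B (s : ℕ) {a b j : ℤ} (ha : a ≤ j) (hb : j < b) : ph m j ∈ B m s a b :=
  Submodule.mem_sup_right (Submodule.subset_span ⟨j, ⟨ha, hb⟩, rfl⟩)

theorem B_le {s : ℕ} {a b : ℤ} {W : Submodule F3 E} (h1 : Per s ≤ W)
    (h2 : ∀ j, a ≤ j → j < b → ph m j ∈ W) : B m s a b ≤ W :=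
  sup_le h1 (Submodule.span_le.2 (by rintro _ ⟨j, hj, rfl⟩; exact h2 j hj.1 hj.2))

def shE (c : ℤ) : E →ₗ[F3] E := LinearMap.funLeft F3 F3 (fun n => n + c)

theorem shE_apply (c : ℤ) (v : E) (n : ℤ) : shE c v n = v (n + c) := rfl

theorem shE_mul (c : ℤ) (v v' : E) : shE c (v * v') = shE c v * shE c v' := rfl

theorem shE_ph (c j : ℤ) : shE c (ph m j) = ph m (j + c) := by
  funext n; simp only [shE_apply, ph]; congr 1; ring

theorem shE_ch (c : ℤ) (k : Finset ℤ) : shE c (ch m k) = ch m (k.image (· + c)) := by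
  unfold ch
  rw [prod_image (fun x _ y _ h => by simpa using h)]
  funext n
  simp only [shE_apply, Finset.prod_apply, ph]
  exact prod_congr rfl fun j _ => by congr 1; ring

theorem shE_B {s : ℕ} {a b : ℤ} (c : ℤ) {v : E} (hv : v ∈ B m s a b) :
    shE c v ∈ B m s (a + c) (b + c) := by
  have : B m s a b ≤ (B m s (a + c) (b + c)).comap (shE c) := by
    refine B_le (fun p hp => Per_le_B _ _ _ fun x t => ?_) fun j ha hb => ?_
    · simp only [shE_apply]; rw [← hp (x + c) t]; congr 1; ring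
    · rw [Submodule.mem_comap, shE_ph]; exact ph_mem_B _ (by omega) (by omega)
  exact this hv

theorem dvd_sh {s M : ℕ} (h : s ≤ M) (n t i : ℤ) :
    (2 : ℤ) ^ s ∣ n + 2 ^ M * t + i ↔ (2 : ℤ) ^ s ∣ n + i := by
  have e : n + 2 ^ M * t + i = n + i + 2 ^ M * t := by ring
  rw [e]; exact dvd_add_left ((pow_dvd_pow 2 h).mul_right t)

theorem ph_per {s M : ℕ} (hs : s ≤ M) (hm : ∀ k < s, m k < M) {n i : ℤ}
    (h : ¬ (2 : ℤ) ^ s ∣ n + i) (t : ℤ) : ph m i (n + 2 ^ M * t) = ph m i n := by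
  have e : n + 2 ^ M * t + i = n + i + 2 ^ M * t := by ring
  unfold ph; rw [e, sg_per m hs hm h]

theorem L1 {s M : ℕ} (hs : s ≤ M) (hm : ∀ k < s, m k < M) (i : ℤ) {p : E} (hp : p ∈ Per s) :
    ph m i * p - p (-i) • ph m i ∈ Per M := by
  intro n t
  simp only [Pi.sub_apply, Pi.mul_apply, Pi.smul_apply, smul_eq_mul]
  rw [Per_mono hs hp n t]
  by_cases h : (2 : ℤ) ^ s ∣ n + i
  · rw [Per_eq hp (x := n) (y := -i) (by rwa [sub_neg_eq_add])]; ring
  · rw [ph_per hs hm h]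

theorem ph_near {s M : ℕ} (hs : s ≤ M) (hm : ∀ k < s, m k < M) {i j n : ℤ}
    (h : ¬ (2 : ℤ) ^ s ∣ i - j) (hn : (2 : ℤ) ^ M ∣ n + j) : ph m i n = sg m (i - j) := by
  obtain ⟨t, ht⟩ := hn
  unfold ph
  rw [← sg_per m hs hm h t]; congr 1; linarith

theorem L2 {s M M' : ℕ} (hs : s ≤ M) (hm : ∀ k < s, m k < M) (hM : M ≤ M')
    (hm' : ∀ k < M, m k < M') {i j : ℤ} (h : ¬ (2 : ℤ) ^ s ∣ i - j) :
    ph m i * ph m j - sg m (j - i) • ph m i - sg m (i - j) • ph m j ∈ Per M' := by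
  intro n t
  have h' : ¬ (2 : ℤ) ^ s ∣ j - i := fun hd => h (by rw [← neg_sub]; exact (dvd_neg).2 hd)
  simp only [Pi.sub_apply, Pi.mul_apply, Pi.smul_apply, smul_eq_mul]
  by_cases h1 : (2 : ℤ) ^ M ∣ n + j
  · rw [ph_near hs hm h h1, ph_near hs hm h ((dvd_sh hM n t j).2 h1)]; ring
  by_cases h2 : (2 : ℤ) ^ M ∣ n + i
  · rw [ph_near hs hm h' h2, ph_near hs hm h' ((dvd_sh hM n t i).2 h2)]; ring
  rw [ph_per hM hm' h1, ph_per hM hm' h2]

theorem exists_M (m : ℕ → ℕ) (s : ℕ) : ∃ M, s ≤ M ∧ ∀ k < s, m k < M := by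
  refine ⟨s + (∑ k ∈ range s, m k) + 1, by omega, fun k hk => ?_⟩
  have := single_le_sum (f := m) (fun _ _ => Nat.zero_le _) (mem_range.2 hk)
  omega

/-- Periodic functions (with a power of two as period) plus the translates of the sign. -/
def V (m : ℕ → ℕ) : Submodule F3 E where
  carrier := {v | ∃ s w : ℕ, v ∈ B m s (-w) w}
  add_mem' := by
    rintro a b ⟨s, w, ha⟩ ⟨s', w', hb⟩
    exact ⟨s + s', w + w', add_mem (B_mono (by omega) (by push_cast; omega) (by push_cast; omega) ha)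
      (B_mono (by omega) (by push_cast; omega) (by push_cast; omega) hb)⟩
  zero_mem' := ⟨0, 0, zero_mem _⟩
  smul_mem' := by
    rintro c v ⟨s, w, hv⟩
    exact ⟨s, w, Submodule.smul_mem _ c hv⟩

theorem B_le_V (s : ℕ) (a b : ℤ) : B m s a b ≤ V m := fun _ hv =>
  ⟨s, a.natAbs + b.natAbs, B_mono le_rfl (by push_cast; have := neg_abs_le a; have := abs_nonneg b; omega)
    (by push_cast; have := le_abs_self b; have := abs_nonneg a; omega) hv⟩

theorem Per_le_V (s : ℕ) : Per s ≤ V m := (Per_le_B s 0 0).trans (B_le_V s 0 0)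

theorem ph_mem_V (j : ℤ) : ph m j ∈ V m := B_le_V 0 j (j + 1) (ph_mem_B 0 le_rfl (by omega))

theorem ph_mul_V (i : ℤ) {v : E} (hv : v ∈ V m) : ph m i * v ∈ V m := by
  obtain ⟨s, w, hv⟩ := hv
  have : B m s (-w) w ≤ (V m).comap (LinearMap.mulLeft F3 (ph m i)) := by
    refine B_le (fun p hp => ?_) fun j _ _ => ?_
    · obtain ⟨M, h1, h2⟩ := exists_M m s
      have := add_mem (Per_le_V (m := m) M (L1 h1 h2 i hp))
        (Submodule.smul_mem _ (p (-i)) (ph_mem_V (m := m) i))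
      rwa [sub_add_cancel] at this
    · show ph m i * ph m j ∈ V m
      by_cases e : i = j
      · rw [e, ph_sq]; exact Per_le_V 0 (one_mem_Per 0)
      have hd : ¬ (2 : ℤ) ^ (i - j).natAbs ∣ i - j := by
        intro hd
        have h1 := Int.natAbs_le_of_dvd_ne_zero hd (by omega)
        have h2 := Nat.lt_two_pow_self (n := (i - j).natAbs)
        rw [Int.natAbs_pow] at h1
        simp at h1
        omega
      obtain ⟨M, h1, h2⟩ := exists_M m (i - j).natAbs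
      obtain ⟨M', h3, h4⟩ := exists_M m M
      have := add_mem (add_mem (Per_le_V (m := m) M' (L2 h1 h2 h3 h4 hd))
        (Submodule.smul_mem _ (sg m (i - j)) (ph_mem_V (m := m) j)))
        (Submodule.smul_mem _ (sg m (j - i)) (ph_mem_V (m := m) i))
      rwa [sub_add_cancel, sub_add_cancel] at this
  exact this hv

theorem ch_mul_V (k : Finset ℤ) {v : E} (hv : v ∈ V m) : ch m k * v ∈ V m := by
  induction k using Finset.induction_on with
  | empty => rwa [ch_empty, one_mul]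
  | insert a k ha ih =>
    unfold ch at ih ⊢
    rw [prod_insert ha, mul_assoc]; exact ph_mul_V a ih

theorem shE_V (c : ℤ) {v : E} (hv : v ∈ V m) : shE c v ∈ V m := by
  obtain ⟨s, w, hv⟩ := hv
  exact B_le_V _ _ _ (shE_B c hv)

theorem exists_B {T : Set E} (hT : T.Finite) (h : ∀ v ∈ T, v ∈ V m) :
    ∃ s w : ℕ, ∀ v ∈ T, v ∈ B m s (-w) w := by
  induction T, hT using Set.Finite.induction_on with
  | empty => exact ⟨0, 0, fun _ h => h.elim⟩
  | @insert a T _ _ ih =>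
    obtain ⟨s, w, h1⟩ := ih fun v hv => h v (Or.inr hv)
    obtain ⟨s', w', h2⟩ := h a (Or.inl rfl)
    refine ⟨s + s', w + w', ?_⟩
    rintro v (rfl | hv)
    · exact B_mono (by omega) (by push_cast; omega) (by push_cast; omega) h2
    · exact B_mono (by omega) (by push_cast; omega) (by push_cast; omega) (h1 v hv)

/-- A subspace with at most `3 ^ d` elements. -/
def Sm (W : Submodule F3 E) (d : ℕ) : Prop := ∃ T : Finset E, T.card ≤ 3 ^ d ∧ ∀ v ∈ W, v ∈ T

theorem Sm.mono {W W' : Submodule F3 E} {d d' : ℕ} (h : Sm W d) (hW : W' ≤ W) (hd : d ≤ d') :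
    Sm W' d' := by
  obtain ⟨T, h1, h2⟩ := h
  exact ⟨T, h1.trans (Nat.pow_le_pow_right (by norm_num) hd), fun v hv => h2 v (hW hv)⟩

theorem Sm.sup {W W' : Submodule F3 E} {d d' : ℕ} (h : Sm W d) (h' : Sm W' d') :
    Sm (W ⊔ W') (d + d') := by
  classical
  obtain ⟨T, h1, h2⟩ := h
  obtain ⟨T', h1', h2'⟩ := h'
  refine ⟨image₂ (· + ·) T T', (card_image₂_le _ _ _).trans ?_, fun v hv => ?_⟩
  · rw [pow_add]; exact Nat.mul_le_mul h1 h1'
  · obtain ⟨a, ha, b, hb, rfl⟩ := Submodule.mem_sup.1 hv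
    exact mem_image₂_of_mem (h2 a ha) (h2' b hb)

theorem Sm.map {W : Submodule F3 E} {d : ℕ} (h : Sm W d) (L : E →ₗ[F3] E) : Sm (W.map L) d := by
  classical
  obtain ⟨T, h1, h2⟩ := h
  refine ⟨T.image L, card_image_le.trans h1, ?_⟩
  rintro _ ⟨a, ha, rfl⟩
  exact mem_image_of_mem _ (h2 a ha)

theorem sm_span (x : E) : Sm (Submodule.span F3 {x}) 1 := by
  classical
  refine ⟨univ.image fun c : F3 => c • x, card_image_le.trans (by simp), fun v hv => ?_⟩
  obtain ⟨c, rfl⟩ := Submodule.mem_span_singleton.1 hv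
  exact mem_image_of_mem _ (mem_univ c)

theorem sm_Per (s : ℕ) : Sm (Per s) (2 ^ s) := by
  classical
  refine ⟨univ.image fun (a : ZMod (2 ^ s) → F3) (x : ℤ) => a x, card_image_le.trans (by simp),
    fun p hp => mem_image.2 ⟨fun r => p (r.val : ℤ), mem_univ _, ?_⟩⟩
  funext x
  refine Per_eq hp ?_
  have : (((((x : ZMod (2 ^ s))).val : ℕ) : ℤ) : ZMod (2 ^ s)) = (x : ZMod (2 ^ s)) := by simp
  have h2 := (ZMod.intCast_eq_intCast_iff_dvd_sub _ _ _).1 this.symm
  exact_mod_cast h2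

theorem B_succ (s : ℕ) (a b : ℤ) :
    B m s a (b + 1) ≤ B m s a b ⊔ Submodule.span F3 {ph m b} := by
  refine B_le ((Per_le_B s a b).trans le_sup_left) fun j ha hb => ?_
  by_cases e : j = b
  · rw [e]; exact Submodule.mem_sup_right (Submodule.mem_span_singleton_self _)
  · exact Submodule.mem_sup_left (ph_mem_B s ha (by omega))

theorem sm_B (s : ℕ) (a : ℤ) (n : ℕ) : Sm (B m s a (a + n)) (2 ^ s + n) := by
  induction n with
  | zero => exact (sm_Per s).mono (B_le le_rfl fun j h1 h2 => by simp at h2; omega) le_rfl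
  | succ n ih =>
    refine (ih.sup (sm_span (ph m (a + n)))).mono ?_ le_rfl
    push_cast
    rw [← add_assoc]; exact B_succ s a _

end Pool.Agent.AlgEnt
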