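import Pool.Agent.P.MP_8d62fb_al.H7.Bounds

namespace Pool.Agent.AlgEnt

open Finset
open scoped symmDiff

/-- The paperfolding choice of digits. -/
def pf : ℕ → ℕ := fun k => k + 1

def th (s : ℕ) (i : ℤ) : E :=
  fun n => if (2 : ℤ) ^ s ∣ n + i ∧ ¬ (2 : ℤ) ^ (s + 1) ∣ n + i then ph pf i n else 0

theorem L3 (s : ℕ) (i : ℤ) {p : E} (hp : p ∈ Per (s + 1)) :
    ph pf i * p - p (-i) • ph pf i - (p (2 ^ s - i) - p (-i)) • th s i ∈ Per (s + 1) := by
  intro n t
  simp only [Pi.sub_apply, Pi.mul_apply, Pi.smul_apply, smul_eq_mul, th,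
    dvd_sh (Nat.le_succ s), dvd_sh (le_refl (s + 1))]
  rw [hp n t]
  by_cases h1 : (2 : ℤ) ^ (s + 1) ∣ n + i
  · rw [Per_eq hp (x := n) (y := -i) (by rwa [sub_neg_eq_add]), if_neg (fun h => h.2 h1),
      if_neg (fun h => h.2 h1)]
    ring
  by_cases h2 : (2 : ℤ) ^ s ∣ n + i
  · have h3 : (2 : ℤ) ^ (s + 1) ∣ n - (2 ^ s - i) := by
      obtain ⟨c, hc⟩ := h2
      rcases Int.emod_two_eq_zero_or_one c with h | h
      · exact absurd ⟨c / 2, by rw [hc, pow_succ, mul_assoc]; congr 1; omega⟩ h1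
      · refine ⟨c / 2, ?_⟩
        have e : c - 1 = 2 * (c / 2) := by omega
        rw [pow_succ, mul_assoc, ← e]; linear_combination hc
    rw [Per_eq hp h3, if_pos ⟨h2, h1⟩, if_pos ⟨h2, h1⟩]
    ring
  · rw [if_neg (fun h => h2 h.1), if_neg (fun h => h2 h.1),
      ph_per (m := pf) (M := s + 1) (Nat.le_succ s) (fun k hk => Nat.succ_lt_succ hk) h2]

theorem mul_B {s : ℕ} {a b i : ℤ} (hl : b - a ≤ 2 ^ s) (ha : a ≤ i) (hb : i < b) {v : E}
    (hv : v ∈ B pf (s + 2) a b) :
    ph pf i * v ∈ B pf (s + 2) a b ⊔ Submodule.span F3 {th (s + 1) i} := by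
  have hi : ph pf i ∈ B pf (s + 2) a b := ph_mem_B _ ha hb
  have : B pf (s + 2) a b ≤ (B pf (s + 2) a b ⊔ Submodule.span F3 {th (s + 1) i}).comap
      (LinearMap.mulLeft F3 (ph pf i)) := by
    refine B_le (fun p hp => ?_) fun j h1 h2 => ?_
    · have := add_mem (add_mem
        (Submodule.mem_sup_left (T := Submodule.span F3 {th (s + 1) i})
          (Per_le_B (m := pf) _ a b (L3 (s + 1) i hp)))
        (Submodule.mem_sup_right (Submodule.smul_mem _ (p (2 ^ (s + 1) - i) - p (-i))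
          (Submodule.mem_span_singleton_self _))))
        (Submodule.mem_sup_left (Submodule.smul_mem _ (p (-i)) hi))
      rwa [sub_add_cancel, sub_add_cancel] at this
    · refine Submodule.mem_sup_left ?_
      show ph pf i * ph pf j ∈ _
      by_cases e : i = j
      · rw [e, ph_sq]; exact Per_le_B _ _ _ (one_mem_Per _)
      have hd : ¬ (2 : ℤ) ^ s ∣ i - j := by
        intro hd
        rcases lt_or_gt_of_ne e with hl' | hl'
        · have := Int.le_of_dvd (by omega) ((dvd_neg).2 hd); omega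
        · have := Int.le_of_dvd (by omega) hd; omega
      have := add_mem (add_mem (Per_le_B (m := pf) (s + 2) a b
          (L2 (m := pf) (Nat.le_succ s) (fun k hk => Nat.succ_lt_succ hk) (Nat.le_succ _)
            (fun k hk => Nat.succ_lt_succ hk) hd))
        (Submodule.smul_mem _ (sg pf (i - j)) (ph_mem_B _ h1 h2)))
        (Submodule.smul_mem _ (sg pf (j - i)) hi)
      rwa [sub_add_cancel, sub_add_cancel] at this
  exact this hv

def low (w : ℕ) (k : Finset ℤ) (j : ℕ) : Finset ℤ := k.filter (· < (j : ℤ) - w)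

def XX (s w w' : ℕ) (k : Finset ℤ) (j : ℕ) : Submodule F3 E :=
  (B pf (s + 2) (j - w') (j + w')).map (LinearMap.mulLeft F3 (ch pf (low w k j)))

def WW (s w w' : ℕ) (k : Finset ℤ) : ℕ → Submodule F3 E
  | 0 => XX s w w' k 0
  | n + 1 => WW s w w' k n ⊔ XX s w w' k (n + 1)

theorem XX_le (s w w' : ℕ) (k : Finset ℤ) : ∀ n, XX s w w' k n ≤ WW s w w' k n
  | 0 => le_rfl
  | _ + 1 => le_sup_right

theorem low_low {w : ℕ} {k k' : Finset ℤ} {n : ℕ} (h : low w k (n + 1) = low w k' (n + 1)) :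
    low w k n = low w k' n := by
  ext x
  have := congrArg (x ∈ ·) h
  simp only [low, mem_filter, eq_iff_iff] at this ⊢
  push_cast at this
  constructor
  · intro hx; exact ⟨(this.1 ⟨hx.1, by omega⟩).1, hx.2⟩
  · intro hx; exact ⟨(this.2 ⟨hx.1, by omega⟩).1, hx.2⟩

theorem WW_congr (s w w' : ℕ) {k k' : Finset ℤ} : ∀ n, low w k n = low w k' n →
    WW s w w' k n = WW s w w' k' n
  | 0, h => by simp only [WW, XX, h]
  | n + 1, h => by simp only [WW, XX, h, WW_congr s w w' n (low_low h)]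

theorem sm_WW {s w w' : ℕ} (hw : w ≤ w') (hs : 2 * w' + 1 ≤ 2 ^ s) (k : Finset ℤ) (n : ℕ) :
    Sm (WW s w w' k n) (2 ^ (s + 2) + 2 * w' + n + (low w k n).card) := by
  induction n with
  | zero =>
    refine ((sm_B (m := pf) (s + 2) (-w') (2 * w')).map _).mono (Submodule.map_mono ?_) (by omega)
    exact B_mono le_rfl (by simp) (by push_cast; omega)
  | succ n ih =>
    have hB : B pf (s + 2) ((n + 1 : ℕ) - w') ((n + 1 : ℕ) + w') ≤
        B pf (s + 2) (n - w') (n + w' + 1) := B_mono le_rfl (by push_cast; omega) (by push_cast; omega)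
    have hX : (B pf (s + 2) (n - w') (n + w' + 1)).map (LinearMap.mulLeft F3 (ch pf (low w k n))) ≤
        WW s w w' k n ⊔ (Submodule.span F3 {ph pf (n + w')}).map
          (LinearMap.mulLeft F3 (ch pf (low w k n))) := by
      refine (Submodule.map_mono (B_succ _ _ _)).trans ?_
      rw [Submodule.map_sup]
      exact sup_le_sup_right (XX_le s w w' k n) _
    by_cases h : (n : ℤ) - w ∈ k
    · have hn : (n : ℤ) - w ∉ low w k n := by simp [low]
      have e : low w k (n + 1) = insert ((n : ℤ) - w) (low w k n) := by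
        ext x
        simp only [low, mem_filter, mem_insert]
        push_cast
        constructor
        · intro hx
          by_cases e : x = n - w
          · exact Or.inl e
          · exact Or.inr ⟨hx.1, by omega⟩
        · rintro (rfl | hx)
          · exact ⟨h, by omega⟩
          · exact ⟨hx.1, by omega⟩
      refine ((ih.sup ((sm_span (ph pf (n + w'))).map
        (LinearMap.mulLeft F3 (ch pf (low w k n))))).sup ((sm_span (th (s + 1) (n - w))).map
        (LinearMap.mulLeft F3 (ch pf (low w k n))))).mono ?_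
        (by rw [e, card_insert_of_notMem hn]; omega)
      refine sup_le (le_sup_left.trans le_sup_left) ?_
      rintro _ ⟨v, hv, rfl⟩
      have h2 : (2 * w' + 1 : ℤ) ≤ 2 ^ s := by exact_mod_cast hs
      have h1 := mul_B (i := n - w) (by omega) (by omega) (by omega) (hB hv)
      have h3 := Submodule.mem_map_of_mem (f := LinearMap.mulLeft F3 (ch pf (low w k n))) h1
      rw [Submodule.map_sup] at h3
      have e2 : LinearMap.mulLeft F3 (ch pf (low w k (n + 1))) v =
          LinearMap.mulLeft F3 (ch pf (low w k n)) (ph pf (n - w) * v) := by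
        simp only [LinearMap.mulLeft_apply, e, ch, prod_insert hn]; ring
      rw [e2]
      exact sup_le_sup_right hX _ h3
    · have e : low w k (n + 1) = low w k n := by
        ext x
        simp only [low, mem_filter]
        push_cast
        constructor
        · intro hx
          have : x ≠ n - w := fun e => h (e ▸ hx.1)
          exact ⟨hx.1, by omega⟩
        · intro hx; exact ⟨hx.1, by omega⟩
      refine (ih.sup ((sm_span (ph pf (n + w'))).map
        (LinearMap.mulLeft F3 (ch pf (low w k n))))).mono ?_ (by rw [e]; omega)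
      refine sup_le le_sup_left ?_
      unfold XX
      rw [e]
      exact (Submodule.map_mono hB).trans hX

theorem traj_WW {F : Set (Gp pf)} {s w w' : ℕ} (hw : ∀ y ∈ F, y.k ⊆ Ico (-(w : ℤ)) w)
    (hv : ∀ y ∈ F, ∀ k ⊆ Ico (-(w : ℤ)) w, ch pf k * y.v ∈ B pf (s + 2) (-w') w') (n : ℕ) :
    traj (sh pf 1) F n ⊆ {x | x.k ⊆ Ico (-(w : ℤ)) (n + w) ∧ x.v ∈ WW s w w' x.k n} := by
  refine traj_sub (sh pf 1)
    (fun n => {x | x.k ⊆ Ico (-(w : ℤ)) (n + w) ∧ x.v ∈ WW s w w' x.k n})
    ⟨empty_subset _, zero_mem _⟩ ?_ n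
  intro n x y hx hy
  rw [sh_iter]
  refine ⟨step_k hx.1 (hw y hy), ?_⟩
  have e : low w (x * sh pf n y).k n = low w x.k n := by
    ext j
    simp only [low, mem_filter, mul_k, sh_k, mem_symmDiff]
    have : j < (n : ℤ) - w → j ∉ y.k.image (· + (n : ℤ)) := fun h1 h2 => by
      have := mem_Ico.1 (img_sub (hw y hy) n h2); omega
    tauto
  refine Submodule.mem_sup_left ?_
  rw [WW_congr s w w' n e, mul_v, sh_v]
  refine add_mem hx.2 (XX_le s w w' _ n ?_)
  have h1 := hv y hy ((x.k \ low w x.k n).image (· + -(n : ℤ))) (fun j hj => by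
    obtain ⟨i, hi, rfl⟩ := mem_image.1 hj
    have h1 := mem_sdiff.1 hi
    have h2 := mem_Ico.1 (hx.1 h1.1)
    have h3 : ¬ i < (n : ℤ) - w := fun h => h1.2 (mem_filter.2 ⟨h1.1, h⟩)
    rw [mem_Ico]; omega)
  have h2 := shE_B n h1
  rw [shE_mul, shE_ch, image_image] at h2
  have e2 : image ((fun x => x + (n : ℤ)) ∘ fun x => x + -(n : ℤ)) (x.k \ low w x.k n) =
      x.k \ low w x.k n := by
    rw [← image_id (s := x.k \ low w x.k n), image_image]
    exact image_congr fun i _ => by simp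
  rw [e2] at h2
  refine ⟨_, B_mono le_rfl (by omega) (by omega) h2, ?_⟩
  rw [LinearMap.mulLeft_apply, ← mul_assoc, ← ch_union disjoint_sdiff,
    union_sdiff_of_subset (show low w x.k n ⊆ x.k from filter_subset _ _)]

theorem ncard_upper {F : Set (Gp pf)} (hF : F.Finite) :
    ∃ C : ℝ, ∀ n, ((traj (sh pf 1) F n).ncard : ℝ) ≤ C * 12 ^ n := by
  obtain ⟨w, hw⟩ := exists_w hF
  obtain ⟨s0, w0, h0⟩ := exists_B (m := pf)
    (Set.Finite.image2 (fun (k : Finset ℤ) (y : Gp pf) => ch pf k * y.v)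
      (Ico (-(w : ℤ)) w).powerset.finite_toSet hF)
    (by rintro _ ⟨k, -, y, -, rfl⟩; exact ch_mul_V k y.hv)
  set w' := w + w0 with hw'
  set s := s0 + (2 * w' + 1) with hs
  have hs2 : 2 * w' + 1 ≤ 2 ^ s := le_trans (by omega) (Nat.lt_two_pow_self (n := s)).le
  refine ⟨3 ^ (2 ^ (s + 2) + 2 * w') * 4 ^ (2 * w), fun n => ?_⟩
  have h1 := traj_WW (s := s) (w' := w') hw (fun y hy k hk =>
    B_mono (by omega) (by omega) (by omega) (h0 _ ⟨k, mem_coe.2 (mem_powerset.2 hk), y, hy, rfl⟩)) n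
  have h2 : traj (sh pf 1) F n ⊆ ⋃ k ∈ (Ico (-(w : ℤ)) (n + w)).powerset,
      {x : Gp pf | x.k = k ∧ x.v ∈ WW s w w' k n} := fun x hx =>
    Set.mem_biUnion (mem_coe.2 (mem_powerset.2 (h1 hx).1)) ⟨rfl, (h1 hx).2⟩
  have h3 := fun k => fib_bound (m := pf) (sm_WW (w := w) (by omega) hs2 k n) k
  have h4 := (Set.ncard_le_ncard h2 ((finite_toSet _).biUnion fun k _ => (h3 k).1)).trans
    ((set_ncard_biUnion_le _ _).trans (sum_le_sum fun k _ => (h3 k).2))
  have h5 : ∑ k ∈ (Ico (-(w : ℤ)) (n + w)).powerset,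
      3 ^ (2 ^ (s + 2) + 2 * w' + n + (low w k n).card) ≤
      3 ^ (2 ^ (s + 2) + 2 * w' + n) * 4 ^ (n + 2 * w) := by
    rw [← card_Ico' w n, show 4 = 3 + 1 from rfl, ← sum_pow_mul_eq_add_pow, mul_sum]
    refine sum_le_sum fun k _ => ?_
    rw [one_pow, mul_one, ← pow_add]
    exact Nat.pow_le_pow_right (by norm_num) (Nat.add_le_add_left (card_filter_le _ _) _)
  have h6 := h4.trans h5
  have e : 3 ^ (2 ^ (s + 2) + 2 * w' + n) * 4 ^ (n + 2 * w) =
      3 ^ (2 ^ (s + 2) + 2 * w') * 4 ^ (2 * w) * 12 ^ n := by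
    rw [pow_add _ _ n, pow_add _ n, show 12 = 3 * 4 from rfl, mul_pow]; ring
  rw [e] at h6
  exact_mod_cast h6

theorem ent_sh_le : ent (sh pf 1) ≤ ENNReal.ofReal (Real.log 12) :=
  ent_le _ 12 (by norm_num) fun F => ncard_upper F.finite_toSet

theorem ent_tw_le : ent (tw pf) ≤ ENNReal.ofReal (Real.log 12) := by
  refine ent_le _ 12 (by norm_num) fun F => ?_
  obtain ⟨C, hC⟩ := ncard_upper (F.finite_toSet.image fun y => y * el pf {0})
  refine ⟨C, fun n => le_trans ?_ (hC n)⟩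
  exact_mod_cast ncard_traj_conj (sh pf 1) (tw pf) _ tw_apply _ F.finite_toSet n

theorem sm_fin {T : Set E} (hT : T.Finite) : ∃ d, Sm (Submodule.span F3 T) d := by
  induction T, hT using Set.Finite.induction_on with
  | empty => exact ⟨_, (sm_Per 0).mono (by simp) le_rfl⟩
  | @insert a T _ _ ih =>
    obtain ⟨d, hd⟩ := ih
    exact ⟨_, ((sm_span a).sup hd).mono (Submodule.span_insert a T).le le_rfl⟩

theorem loc_fin {m : ℕ → ℕ} (S : Set (Gp m)) (hS : S.Finite) :
    (Subgroup.closure S : Set (Gp m)).Finite := by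
  obtain ⟨w, hw⟩ := exists_w hS
  set I := Ico (-(w : ℤ)) w
  obtain ⟨d, hd⟩ := sm_fin (Set.Finite.image2 (fun (k : Finset ℤ) (y : Gp m) => ch m k * y.v)
      I.powerset.finite_toSet hS)
  set M := Submodule.span F3 (Set.image2 (fun (k : Finset ℤ) (y : Gp m) => ch m k * y.v)
    (I.powerset : Set (Finset ℤ)) S)
  have hsd : ∀ k k' : Finset ℤ, k ⊆ I → k' ⊆ I → k ∆ k' ⊆ I := fun k k' h h' j hj =>
    (mem_symmDiff.1 hj).elim (fun a => h a.1) fun a => h' a.1
  let L : Subgroup (Gp m) :=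
    { carrier := {x | x.k ⊆ I ∧ ∀ k ⊆ I, ch m k * x.v ∈ M}
      mul_mem' := fun {a b} ha hb => ⟨hsd _ _ ha.1 hb.1, fun k hk => by
        rw [mul_v, mul_add, ← mul_assoc, ← ch_symm]
        exact add_mem (ha.2 k hk) (hb.2 _ (hsd _ _ hk ha.1))⟩
      one_mem' := ⟨empty_subset _, fun k _ => by rw [one_v, mul_zero]; exact zero_mem _⟩
      inv_mem' := fun {a} ha => ⟨ha.1, fun k hk => by
        rw [inv_v, mul_neg, ← mul_assoc, ← ch_symm]
        exact neg_mem (ha.2 _ (hsd _ _ hk ha.1))⟩ }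
  have hL : Subgroup.closure S ≤ L := (Subgroup.closure_le L).2 fun y hy =>
    ⟨hw y hy, fun k hk => Submodule.subset_span ⟨k, mem_coe.2 (mem_powerset.2 hk), y, hy, rfl⟩⟩
  refine (I.powerset.finite_toSet.biUnion fun k _ => (fib_bound (m := m) hd k).1).subset
    fun x hx => Set.mem_biUnion (mem_coe.2 (mem_powerset.2 (hL hx).1)) ⟨rfl, ?_⟩
  have := (hL hx).2 ∅ (empty_subset _)
  rwa [ch_empty, one_mul] at this

end Pool.Agent.AlgEnt
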